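import Pool.Agent.QSN.StmtsA
import Pool.Agent.Helper31_QSX.CHC

/-!
# Squad QSN, row CCM: homogeneous families

Products, monomial factors, the commutator (copy of `Helper31_QSX/CHC.lean`).
-/

set_option autoImplicit false

namespace Pool.Agent.QSN.H15

open Matrix Finset Pool.Agent.QSX Pool.Agent.QSX.H31

/-- families without the condition on the axes -/
structure PM {X : Dat} (hX : MRS X) (l l' : hX.ι) (G : Matrix (Fin X.m) (Fin X.m) R2) :
    Prop where
  uu : UU G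
  mem : ∀ x y, ∃ z ∈ X.n, evM x y G = mexp z
  hom : ∀ (a : X.b) (x y : ℝ), diagonal (fun i => Real.exp ((a : Fin X.m → ℝ) i)) * evM x y G *
    diagonal (fun i => Real.exp (-(a : Fin X.m → ℝ) i)) =
      evM (Real.exp (hX.rt l a) * x) (Real.exp (hX.rt l' a) * y) G
  rat : ∀ i j, ∃ q : ℚ, evM 1 1 G i j = (q : ℝ)

theorem PM.mul (hB : BchStmt) {X : Dat} {hX : MRS X} {l l' : hX.ι}
    {G H : Matrix (Fin X.m) (Fin X.m) R2} (hG : PM hX l l' G) (hH : PM hX l l' H) :
    PM hX l l' (G * H) := by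
  refine ⟨UU.mul' hG.uu hH.uu, fun x y => ?_, fun a x y => ?_, ?_⟩
  · obtain ⟨z1, h1, e1⟩ := hG.mem x y
    obtain ⟨z2, h2, e2⟩ := hH.mem x y
    obtain ⟨z, hz, ez⟩ := hB ℝ X.m X.n X.su X.lie z1 h1 z2 h2
    refine ⟨z, hz, ?_⟩
    rw [evM_mul, e1, e2, ← ue_val (X.su z1 h1), ← ue_val (X.su z2 h2), ← Units.val_mul, ez,
      ue_val (X.su z hz)]
  · rw [evM_mul, evM_mul, ← hG.hom, ← hH.hom]
    set D := diagonal fun i => Real.exp ((a : Fin X.m → ℝ) i) with hD
    set D' := diagonal fun i => Real.exp (-(a : Fin X.m → ℝ) i) with hD'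
    have h1 : D' * D = 1 := diag_inv _
    calc D * (evM x y G * evM x y H) * D' = D * evM x y G * 1 * evM x y H * D' := by
          rw [mul_one]; simp only [mul_assoc]
      _ = D * evM x y G * (D' * D) * evM x y H * D' := by rw [h1]
      _ = D * evM x y G * D' * (D * evM x y H * D') := by simp only [mul_assoc]
  · rw [evM_mul]
    exact Rt.mul hG.rat hH.rat

theorem famM_pm {X : Dat} {hX : MRS X} {l l' : hX.ι}
    {G : Matrix (Fin X.m) (Fin X.m) R2} (hG : FamM hX l l' G) : PM hX l l' G :=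
  ⟨hG.uu, hG.mem, hG.hom, hG.rat⟩

theorem e_mem' {X : Dat} (hX : MRS X) (t : hX.ι) : hX.e t ∈ X.n := by
  rw [← hX.span_e]
  exact Submodule.subset_span ⟨t, rfl⟩

/-- the matrix of the monomial -/
noncomputable def mono' {X : Dat} (hX : MRS X) (t : hX.ι) (p q : ℕ) (c : ℝ) :
    Matrix (Fin X.m) (Fin X.m) R2 :=
  (MvPolynomial.C c * MvPolynomial.X 0 ^ p * MvPolynomial.X 1 ^ q : R2) •
    (hX.e t).map (MvPolynomial.C : ℝ →+* R2)

theorem evM_mono' {X : Dat} (hX : MRS X) (t : hX.ι) (p q : ℕ) (c x y : ℝ) :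
    evM x y (mono' hX t p q c) = (c * x ^ p * y ^ q) • hX.e t := by
  ext i j
  simp only [evM, mono', Matrix.map_apply, Matrix.smul_apply, smul_eq_mul, map_mul, map_pow,
    MvPolynomial.eval_C, MvPolynomial.eval_X, Matrix.cons_val_zero, Matrix.cons_val_one]

theorem su_mono' {X : Dat} (hX : MRS X) (t : hX.ι) (p q : ℕ) (c : ℝ) :
    SU (mono' hX t p q c) := by
  intro i j h
  rw [mono', Matrix.smul_apply, Matrix.map_apply, X.su _ (e_mem' hX t) i j h, map_zero, smul_zero]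

/-- conjugation of a root vector -/
theorem conj_e' {X : Dat} (hX : MRS X) (t : hX.ι) (a : X.b) :
    diagonal (fun i => Real.exp ((a : Fin X.m → ℝ) i)) * hX.e t *
      diagonal (fun i => Real.exp (-(a : Fin X.m → ℝ) i)) = Real.exp (hX.rt t a) • hX.e t := by
  ext i j
  rw [Matrix.mul_diagonal, Matrix.diagonal_mul, Matrix.smul_apply, smul_eq_mul]
  have h := congrFun (congrFun (hX.wt t a) i) j
  rw [Matrix.sub_apply, Matrix.diagonal_mul, Matrix.mul_diagonal, Matrix.smul_apply,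
    smul_eq_mul] at h
  by_cases h0 : hX.e t i j = 0
  · rw [h0]; ring
  · have h1 : (a : Fin X.m → ℝ) i - (a : Fin X.m → ℝ) j = hX.rt t a := by
      apply mul_right_cancel₀ h0
      rw [← h]; ring
    rw [← h1, sub_eq_add_neg, Real.exp_add]
    ring

theorem pm_mono (hM : McjStmt) (hL : LgmStmt) {X : Dat} (hX : MRS X) (l l' t : hX.ι)
    (p q : ℕ) (c : ℚ) (h : hX.rt t = (p : ℝ) • hX.rt l + (q : ℝ) • hX.rt l') :
    PM hX l l' (mexp (mono' hX t p q (c : ℝ))) := by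
  refine ⟨((hL R2 X.m).1 _ (su_mono' hX t p q c)).1, fun x y => ?_, fun a x y => ?_, ?_⟩
  · refine ⟨(c * x ^ p * y ^ q) • hX.e t, X.n.smul_mem _ (e_mem' hX t), ?_⟩
    rw [evM_mexp, evM_mono']
  · rw [evM_mexp, evM_mono', evM_mexp, evM_mono',
      conj_mexp hM _ _ ((X.su _ (e_mem' hX t)).smul _)]
    congr 1
    rw [mul_smul_comm, smul_mul_assoc, conj_e', smul_smul]
    congr 1
    have h1 : hX.rt t a = p * hX.rt l a + q * hX.rt l' a := by
      rw [h, LinearMap.add_apply, LinearMap.smul_apply, LinearMap.smul_apply, smul_eq_mul,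
        smul_eq_mul]
    rw [h1, Real.exp_add, Real.exp_nat_mul, Real.exp_nat_mul, mul_pow, mul_pow]
    ring
  · rw [evM_mexp, evM_mono']
    refine Rt.mexp (Rt.smul (hX.rat t) c ?_)
    ring

theorem ccm (hM : McjStmt) (hB : BchStmt) (hL : LgmStmt) : CcmStmt := by
  intro X hX l l'
  refine ⟨fun G H hG hH => ?_, fun t p q c hp hq h => ?_, ?_⟩
  · have h := PM.mul hB (famM_pm hG) (famM_pm hH)
    refine ⟨h.uu, h.mem, h.hom, fun x => ⟨?_, ?_⟩, h.rat⟩
    · rw [evM_mul, (hG.triv x).1, (hH.triv x).1, mul_one]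
    · rw [evM_mul, (hG.triv x).2, (hH.triv x).2, mul_one]
  · have h1 := pm_mono hM hL hX l l' t p q c h
    refine ⟨mexp (mono' hX t p q (c : ℝ)), ⟨h1.uu, h1.mem, h1.hom, fun x => ⟨?_, ?_⟩, h1.rat⟩,
      fun x y => ?_⟩
    · rw [evM_mexp, evM_mono', zero_pow (by omega), mul_zero, zero_smul, mexp_zero]
    · rw [evM_mexp, evM_mono', zero_pow (by omega), mul_zero, zero_mul, zero_smul, mexp_zero]
    · rw [evM_mexp, evM_mono']
  · have hl : hX.rt l = ((1 : ℕ) : ℝ) • hX.rt l + ((0 : ℕ) : ℝ) • hX.rt l' := by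
      rw [Nat.cast_one, Nat.cast_zero, one_smul, zero_smul, add_zero]
    have hl' : hX.rt l' = ((0 : ℕ) : ℝ) • hX.rt l + ((1 : ℕ) : ℝ) • hX.rt l' := by
      rw [Nat.cast_one, Nat.cast_zero, one_smul, zero_smul, zero_add]
    have hG := PM.mul hB (PM.mul hB (PM.mul hB (pm_mono hM hL hX l l' l 1 0 1 hl)
      (pm_mono hM hL hX l l' l' 0 1 1 hl')) (pm_mono hM hL hX l l' l 1 0 (-1) hl))
      (pm_mono hM hL hX l l' l' 0 1 (-1) hl')
    have hv : ∀ x y : ℝ, evM x y (mexp (mono' hX l 1 0 ((1 : ℚ) : ℝ)) *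
        mexp (mono' hX l' 0 1 ((1 : ℚ) : ℝ)) * mexp (mono' hX l 1 0 ((-1 : ℚ) : ℝ)) *
        mexp (mono' hX l' 0 1 ((-1 : ℚ) : ℝ))) =
      mexp (x • hX.e l) * mexp (y • hX.e l') * mexp (-(x • hX.e l)) * mexp (-(y • hX.e l')) := by
      intro x y
      simp only [evM_mul, evM_mexp, evM_mono']
      push_cast
      congr 1
      · congr 1
        · congr 1
          · congr 2; ring
          · congr 2; ring
        · congr 1
          rw [← neg_smul]; congr 1; ring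
      · congr 1
        rw [← neg_smul]; congr 1; ring
    have hse : ∀ (t : hX.ι) (x : ℝ), SU (x • hX.e t) := fun t x => (X.su _ (e_mem' hX t)).smul x
    refine ⟨_, ⟨hG.uu, hG.mem, hG.hom, fun x => ⟨?_, ?_⟩, hG.rat⟩, hv⟩
    · rw [hv, zero_smul, neg_zero, mexp_zero, mul_one, mul_one, mexp_mul_neg (hse l x)]
    · rw [hv, zero_smul, neg_zero, mexp_zero, one_mul, mul_one, mexp_mul_neg (hse l' x)]

end Pool.Agent.QSN.H15
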