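import Pool.Agent.QSN.StmtsD

namespace Pool.Agent.QSN.H15

open Pool.Agent.QSN

theorem sct : SctStmt := by
  intro m α I _ w g hg
  classical
  have h1 : ∑ i, mu w (g i) = Nat.card (Σ i : I, {p : Fin m // w p = g i}) := by
    rw [Nat.card_sigma]
    rfl
  rw [h1]
  have hinj : Function.Injective (fun x : (Σ i : I, {p : Fin m // w p = g i}) => x.2.1) := by
    rintro ⟨i, p, hp⟩ ⟨j, q, hq⟩ h
    have hpq : p = q := h
    subst hpq
    have hij : i = j := hg (hp.symm.trans hq)
    subst hij
    rfl
  have h2 := Nat.card_le_card_of_injective _ hinj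
  simpa using h2

end Pool.Agent.QSN.H15
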